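import Pool.Agent.H16.TO.Targets

/-!
# LV: one level of the mixed radix system
-/

set_option autoImplicit false

namespace Pool.Agent.H33.TW

open Pool.Agent.H16.TO

theorem lv_mod {m n : ℕ} (hn : 0 < n) : m % n + 1 = n ↔ (m + 1) % n = 0 := by
  have h1 := Nat.div_add_mod m n
  constructor
  · intro h
    have h2 : m + 1 = n * (m / n + 1) := by
      rw [mul_add, mul_one]
      omega
    rw [h2]
    exact Nat.mul_mod_right _ _
  · intro h
    have h2 : n ∣ m % n + 1 := by
      have h3 : n ∣ n * (m / n) + (m % n + 1) := by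
        have h4 : n * (m / n) + (m % n + 1) = m + 1 := by omega
        rw [h4]
        exact Nat.dvd_of_mod_eq_zero h
      exact (Nat.dvd_add_right (dvd_mul_right _ _)).1 h3
    have h5 := Nat.le_of_dvd (Nat.succ_pos _) h2
    have h6 := Nat.mod_lt m hn
    omega

theorem lv_end {s q : ℕ} (hs : 0 < s) : (s * (q + 1) - 1) / s = q := by
  have h : s * (q + 1) - 1 = s * q + (s - 1) := by
    rw [mul_add, mul_one]
    omega
  rw [h, Nat.mul_add_div hs, Nat.div_eq_of_lt (by omega), add_zero]

/-- LV -/
theorem pf_lv : T_LV := by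
  intro K s s' Z M hK hs hsK hZ0 hMK hcon hcar hs' hs'K hno hs's hMs' hper
  obtain ⟨n, rfl⟩ : s ∣ s' := Nat.dvd_of_mod_eq_zero hs's
  have hn : 0 < n := Nat.pos_of_mul_pos_left hs'
  -- constant on blocks
  have ha : ∀ k, k < K → M k = M (s * (k / s)) ∧ Z k = Z (s * (k / s)) := by
    intro k
    induction k with
    | zero =>
      intro _
      rw [Nat.zero_div, mul_zero]
      exact ⟨rfl, rfl⟩
    | succ k ih =>
      intro hk
      by_cases h : (k + 1) % s = 0
      · have h1 : s * ((k + 1) / s) = k + 1 := Nat.mul_div_cancel' (Nat.dvd_of_mod_eq_zero h)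
        rw [h1]
        exact ⟨rfl, rfl⟩
      · have h1 : (k + 1) / s = k / s := by
          rw [Nat.succ_div, if_neg (fun h2 => h (Nat.mod_eq_zero_of_dvd h2)), add_zero]
        have h2 := hcon k hk h
        have h3 := ih (by omega)
        rw [h1, h2.1, h2.2]
        exact h3
  have hb : ∀ k, k < s * n → (M k = true ↔ k / s + 1 = n) := by
    intro k hk
    have hq : k / s < n := Nat.div_lt_of_lt_mul hk
    have hle : s * (k / s + 1) ≤ s * n := Nat.mul_le_mul_left s hq
    have hpos : 0 < s * (k / s + 1) := Nat.mul_pos hs (Nat.succ_pos _)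
    have h1 : M k = M (s * (k / s + 1) - 1) := by
      rw [(ha k (by omega)).1, (ha (s * (k / s + 1) - 1) (by omega)).1, lv_end hs]
    rw [h1]
    constructor
    · intro h
      by_contra hne
      have h2 : k / s + 1 < n := by omega
      have h3 : s * (k / s + 1) < s * n := Nat.mul_lt_mul_of_pos_left h2 hs
      refine hno (s * (k / s + 1) - 1) (by omega) ⟨?_, h⟩
      rw [Nat.sub_add_cancel hpos]
      exact Nat.mul_mod_right _ _
    · intro h
      rw [h]
      exact hMs'
  have hc : ∀ k, k < K → M k = M (k % (s * n)) := by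
    intro k
    induction k using Nat.strong_induction_on with
    | _ k ih =>
      intro hk
      by_cases h : k < s * n
      · rw [Nat.mod_eq_of_lt h]
      · have h1 : k - s * n + s * n = k := Nat.sub_add_cancel (by omega)
        have h2 := hper (k - s * n) (by omega)
        rw [h1] at h2
        rw [h2, ih (k - s * n) (by omega) (by omega), ← Nat.mod_eq_sub_mod (by omega)]
  have hM : ∀ k, k < K → (M k = true ↔ k / s % n + 1 = n) := by
    intro k hk
    rw [hc k hk, hb _ (Nat.mod_lt k hs'), Nat.mod_mul_right_div_self]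
  refine ⟨n, hn, rfl, ?_, fun k hk => ⟨hM k hk, ?_⟩⟩
  · obtain ⟨c, rfl⟩ := hsK
    obtain ⟨c, rfl⟩ : ∃ c', c = c' + 1 :=
      ⟨c - 1, (Nat.sub_add_cancel (Nat.pos_of_mul_pos_left hK)).symm⟩
    have h1 := (hM _ (by omega)).1 hMK
    rw [lv_end hs, lv_mod hn] at h1
    exact Nat.mul_dvd_mul_left s (Nat.dvd_of_mod_eq_zero h1)
  · rw [(ha k hk).2]
    rcases Nat.eq_zero_or_pos (k / s) with h0 | h0
    · rw [h0, mul_zero, Nat.zero_mod]
      simp [hZ0]
    · obtain ⟨q, hq⟩ : ∃ q, k / s = q + 1 := ⟨k / s - 1, by omega⟩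
      rw [hq]
      have hpos : 0 < s * (q + 1) := Nat.mul_pos hs (Nat.succ_pos _)
      have hle : s * (q + 1) ≤ k := by
        rw [← hq]
        exact Nat.mul_div_le k s
      have h1 := hcar (s * (q + 1) - 1) (by omega)
        (by rw [Nat.sub_add_cancel hpos]; exact Nat.mul_mod_right _ _)
      rw [Nat.sub_add_cancel hpos] at h1
      rw [h1, hM _ (by omega), lv_end hs, lv_mod hn]

end Pool.Agent.H33.TW
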