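import Pool.Agent.H16.TO.Targets

/-!
# SH: the shift
-/

set_option autoImplicit false

namespace Pool.Agent.H33.TW

open Pool.Agent.H16.TO

theorem sh_up {key : ℕ → ℕ} {N a : ℕ} (h : ∃ b < N, key a < key b) :
    ∃ b < N, Cov key N a b := by
  obtain ⟨b₀, hb₀, h0⟩ := h
  obtain ⟨b, hb, hmin⟩ := Finset.exists_min_image
    ((Finset.range N).filter fun b => key a < key b) key
    ⟨b₀, Finset.mem_filter.2 ⟨Finset.mem_range.2 hb₀, h0⟩⟩
  rw [Finset.mem_filter, Finset.mem_range] at hb
  refine ⟨b, hb.1, hb.2, fun c hc hcc => ?_⟩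
  have h1 := hmin c (Finset.mem_filter.2 ⟨Finset.mem_range.2 hc, hcc.1⟩)
  omega

theorem sh_down {key : ℕ → ℕ} {N a : ℕ} (h : ∃ b < N, key b < key a) :
    ∃ b < N, Cov key N b a := by
  obtain ⟨b₀, hb₀, h0⟩ := h
  obtain ⟨b, hb, hmax⟩ := Finset.exists_max_image
    ((Finset.range N).filter fun b => key b < key a) key
    ⟨b₀, Finset.mem_filter.2 ⟨Finset.mem_range.2 hb₀, h0⟩⟩
  rw [Finset.mem_filter, Finset.mem_range] at hb
  refine ⟨b, hb.1, hb.2, fun c hc hcc => ?_⟩
  have h1 := hmax c (Finset.mem_filter.2 ⟨Finset.mem_range.2 hc, hcc.2⟩)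
  omega

/-- SH -/
theorem pf_sh : T_SH := by
  intro N K A s key e d he hd heN hdN hAK hsK hinj hcov hup hdown hemono hdmono
  have h1 : ∀ k, ∃ l, k < A → s ≤ l ∧ l < K ∧ Cov key N (e k) (d l) := by
    intro k
    by_cases hk : k < A
    · obtain ⟨b, hb, hc⟩ := sh_up (hup k hk)
      obtain ⟨l, hl1, hl2, rfl⟩ := (hcov _ (heN k (by omega)) b hb hc).1 ⟨k, hk, rfl⟩
      exact ⟨l, fun _ => ⟨hl1, hl2, hc⟩⟩
    · exact ⟨0, fun h => absurd h hk⟩
  choose mu hmu using h1
  have hmono : ∀ k k', k < k' → k' < A → mu k < mu k' := by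
    intro k k' hkk hk'
    obtain ⟨a1, a2, a3⟩ := hmu k (by omega)
    obtain ⟨b1, b2, b3⟩ := hmu k' hk'
    have h2 := hemono k k' hkk hk'
    have h3 := a3.2 (e k') (heN k' (by omega))
    have h4 := b3.1
    rcases lt_trichotomy (mu k) (mu k') with h | h | h
    · exact h
    · exfalso
      rw [← h] at h4
      exact h3 ⟨h2, h4⟩
    · exfalso
      have h5 := hdmono (mu k') (mu k) b1 h a2
      exact h3 ⟨h2, by omega⟩
  have honto : ∀ l, s ≤ l → l < K → ∃ k < A, mu k = l := by
    intro l hl1 hl2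
    obtain ⟨a, ha, hc⟩ := sh_down (hdown l hl1 hl2)
    obtain ⟨k, hk, rfl⟩ := (hcov a ha _ (hdN l hl2) hc).2 ⟨l, hl1, hl2, rfl⟩
    refine ⟨k, hk, ?_⟩
    obtain ⟨a1, a2, a3⟩ := hmu k hk
    have h2 := a3.2 (d l) (hdN l hl2)
    have h3 := hc.2 (d (mu k)) (hdN _ a2)
    have h4 := a3.1
    have h5 := hc.1
    have h6 : key (d (mu k)) = key (d l) := by
      rcases lt_trichotomy (key (d (mu k))) (key (d l)) with h | h | h
      · exact absurd ⟨h4, h⟩ h3
      · exact h
      · exact absurd ⟨h5, h⟩ h2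
    exact hd.injective (hinj _ (hdN _ a2) _ (hdN l hl2) h6)
  have hval : ∀ k, k < A → mu k = k + s := by
    intro k
    induction k using Nat.strong_induction_on with
    | _ k ih =>
      intro hk
      obtain ⟨a1, a2, -⟩ := hmu k hk
      have h2 : k + s ≤ mu k := by
        rcases Nat.eq_zero_or_pos k with h0 | h0
        · subst h0
          omega
        · have h3 := ih (k - 1) (by omega) (by omega)
          have h4 := hmono (k - 1) k (by omega) hk
          omega
      by_contra hne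
      obtain ⟨k', hk', h5⟩ := honto (k + s) (by omega) (by omega)
      rcases lt_trichotomy k' k with h | h | h
      · have h6 := ih k' h hk'
        omega
      · subst h
        exact hne h5
      · have h6 := hmono k k' h hk'
        omega
  refine ⟨?_, fun k hk => ?_⟩
  · apply le_antisymm
    · rcases Nat.eq_zero_or_pos A with h0 | h0
      · omega
      · have h2 := hval (A - 1) (by omega)
        have h3 := (hmu (A - 1) (by omega)).2.1
        omega
    · by_contra hlt
      obtain ⟨k', hk', h5⟩ := honto (A + s) (by omega) (by omega)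
      have h6 := hval k' hk'
      omega
  · have h2 := (hmu k hk).2.2
    rwa [hval k hk] at h2

end Pool.Agent.H33.TW
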